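import Pool.Agent.W_868bb7_h64.Main

set_option autoImplicit false

/-!
# MP_868bb7_ag: Schur functors

`C` is any `K`-linear (`K` a field of characteristic zero) pseudo-abelian rigid symmetric tensor
category with `End(1) = K` and binary direct sums, for example the category of Chow motives over the
complex numbers with rational coefficients.  Let `n ≥ 1` and let `S` be a non-zero direct summand of
`M^{⊗ n}` whose projector is a linear combination of permutations of the factors, for example a
non-zero Schur functor `S_λ(M)` with `|λ| = n`.  Then `M` is Kimura finite-dimensional if and only if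
`S` is.
-/

namespace Pool.Agent.W_868bb7_h64.OldSchurPower

open CategoryTheory MonoidalCategory Limits Pool.Agent.W_MP_868bb7_ag

universe v u w

theorem result (K : Type w) [Field K] [CharZero K] {C : Type u} [Category.{v} C]
    [MonoidalCategory C] [Preadditive C] [Linear K C] [MonoidalPreadditive C] [MonoidalLinear K C]
    [SymmetricCategory C] [RightRigidCategory C] [HasBinaryBiproducts C] [IsIdempotentComplete C]
    (hunit : Function.Bijective (fun a : K => a • 𝟙 (𝟙_ C)))
    (M S : C) (n : ℕ) (hn : 1 ≤ n) (i : S ⟶ pow M n) (p : pow M n ⟶ S) (hip : i ≫ p = 𝟙 S)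
    (c : Equiv.Perm (Fin n) → K) (hpi : p ≫ i = ∑ σ, c σ • act M n σ) (hS : ¬ IsZero S) :
    KimuraFD K M ↔ KimuraFD K S := by
  haveI : UnitK K C := ⟨hunit⟩
  exact Pool.Agent.W_868bb7_h64.main_iff K M S n hn c i p hip hpi hS

end Pool.Agent.W_868bb7_h64.OldSchurPower
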