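import Pool.Agent.W_MP_868bb7_ag.ThmB

set_option autoImplicit false

/-!
# MP_868bb7_ag: symmetric and exterior powers

`C` is any `K`-linear (`K` a field of characteristic zero) pseudo-abelian rigid symmetric tensor
category with `End(1) = K`, for example the category of Chow motives over the complex numbers with
rational coefficients.  Let `n ≥ 1` and let `S` be the symmetric power `Sym^n M` or the exterior
power `Λ^n M`, that is, the image of the idempotent `(1/n!) ∑ σ` or `(1/n!) ∑ sgn(σ) σ` of
`M^{⊗ n}`.  Then `M` is Kimura finite-dimensional if and only if `S` is.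
-/

namespace Pool.Agent.Results.MP_868bb7_ag.SymAltPower

open CategoryTheory MonoidalCategory Limits Pool.Agent.W_MP_868bb7_ag

universe v u w

theorem result (K : Type w) [Field K] [CharZero K] {C : Type u} [Category.{v} C]
    [MonoidalCategory C] [Preadditive C] [Linear K C] [MonoidalPreadditive C] [MonoidalLinear K C]
    [SymmetricCategory C] [RightRigidCategory C] [HasBinaryBiproducts C] [IsIdempotentComplete C]
    (hunit : Function.Bijective (fun a : K => a • 𝟙 (𝟙_ C)))
    (M S : C) (n : ℕ) (hn : 1 ≤ n) (i : S ⟶ pow M n) (p : pow M n ⟶ S) (hip : i ≫ p = 𝟙 S)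
    (hpi : p ≫ i = symPart K M n ∨ p ≫ i = altPart K M n) :
    KimuraFD K M ↔ KimuraFD K S := by
  haveI : UnitK K C := ⟨hunit⟩
  rcases hpi with h | h
  · have hS : Img K false M n S := ⟨i, p, hip, by rw [h, of_E_false]⟩
    exact ⟨kimura_img K false M n S hS, thmB K false M n hn S hS⟩
  · have hS : Img K true M n S := ⟨i, p, hip, by rw [h, of_E_true]⟩
    exact ⟨kimura_img K true M n S hS, thmB K true M n hn S hS⟩

end Pool.Agent.Results.MP_868bb7_ag.SymAltPower
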