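import Pool.Agent.W_MP_868bb7_ag.ThmA

set_option autoImplicit false

/-!
# MP_868bb7_ag: factors of a non-zero Kimura finite-dimensional tensor product

`C` is any `K`-linear (`K` a field of characteristic zero) pseudo-abelian rigid symmetric tensor
category with `End(1) = K`, for example the category of Chow motives over the complex numbers with
rational coefficients.  If `M ⊗ N` is non-zero and Kimura finite-dimensional, then `M` and `N` are
Kimura finite-dimensional.
-/

namespace Pool.Agent.W_868bb7_h64.OldTensorFactor

open CategoryTheory MonoidalCategory Limits Pool.Agent.W_MP_868bb7_ag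

universe v u w

theorem result (K : Type w) [Field K] [CharZero K] {C : Type u} [Category.{v} C]
    [MonoidalCategory C] [Preadditive C] [Linear K C] [MonoidalPreadditive C] [MonoidalLinear K C]
    [SymmetricCategory C] [RightRigidCategory C] [HasBinaryBiproducts C] [IsIdempotentComplete C]
    (hunit : Function.Bijective (fun a : K => a • 𝟙 (𝟙_ C)))
    (M N : C) (hne : ¬ IsZero (M ⊗ N)) (h : KimuraFD K (M ⊗ N)) :
    KimuraFD K M ∧ KimuraFD K N := by
  haveI : UnitK K C := ⟨hunit⟩
  exact thmA K M N h hne

end Pool.Agent.W_868bb7_h64.OldTensorFactor
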